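import Pool.Agent.R82.AE.Start

/-!
Avoider's greedy strategy in the strict (1 : b) Avoider-Enforcer k-star game.
-/

namespace Pool.Agent.R82.AE

open Finset

variable {n : ℕ}

/-- The number of vertices of degree at least `j`. -/
def nv (j : ℕ) (A : Finset (Sym2 (Fin n))) : ℕ :=
  (Finset.univ.filter (fun v : Fin n => j ≤ deg A v)).card

lemma nv_le_n (j : ℕ) (A : Finset (Sym2 (Fin n))) : nv j A ≤ n := by
  unfold nv
  refine (Finset.card_le_univ _).trans ?_
  rw [Fintype.card_fin]

lemma nv_eq_zero {j : ℕ} {A : Finset (Sym2 (Fin n))} (h : nv j A = 0) (v : Fin n) :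
    deg A v < j := by
  unfold nv at h
  rw [Finset.card_eq_zero, Finset.filter_eq_empty_iff] at h
  have := h (Finset.mem_univ v)
  omega

lemma card_incidence (v : Fin n) : ((board n).filter (fun e => v ∈ e)).card ≤ n - 1 := by
  have h1 : (board n).filter (fun e => v ∈ e) ⊆
      (Finset.univ.erase v).image (fun w => s(v, w)) := by
    intro e he
    rw [Finset.mem_filter] at he
    obtain ⟨w, rfl⟩ := Sym2.mem_iff_exists.1 he.2
    rw [Finset.mem_image]
    refine ⟨w, ?_, rfl⟩
    rw [Finset.mem_erase]
    refine ⟨?_, Finset.mem_univ _⟩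
    rintro rfl
    have := (Finset.mem_filter.1 he.1).2
    exact this (by simp)
  refine (Finset.card_le_card h1).trans (Finset.card_image_le.trans ?_)
  rw [Finset.card_erase_of_mem (Finset.mem_univ _), Finset.card_univ, Fintype.card_fin]

lemma greedy (A E : Finset (Sym2 (Fin n))) (hne : (free A E).Nonempty) :
    ∃ e ∈ free A E, ∀ j, nv (j + 1) (insert e A) ≤ nv (j + 1) A ∨
      (nv (j + 1) (insert e A) ≤ nv (j + 1) A + 2 ∧ (free A E).card ≤ nv j A * (n - 1)) := by
  obtain ⟨e, he, hmin⟩ := Finset.exists_min_image (free A E)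
    (fun f => (Finset.univ.filter (fun v => v ∈ f)).sup (deg A)) hne
  refine ⟨e, he, fun j => ?_⟩
  by_cases hj : j ≤ (Finset.univ.filter (fun v => v ∈ e)).sup (deg A)
  · right
    constructor
    · unfold nv
      have h1 : Finset.univ.filter (fun v : Fin n => j + 1 ≤ deg (insert e A) v) ⊆
          Finset.univ.filter (fun v : Fin n => j + 1 ≤ deg A v) ∪
          Finset.univ.filter (fun v => v ∈ e) := by
        intro v hv
        rw [Finset.mem_union, Finset.mem_filter, Finset.mem_filter]
        by_cases hve : v ∈ e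
        · exact Or.inr ⟨Finset.mem_univ _, hve⟩
        · left
          rw [Finset.mem_filter, deg_insert_of_notMem hve] at hv
          exact hv
      refine (Finset.card_le_card h1).trans ((Finset.card_union_le _ _).trans ?_)
      have h2 : (Finset.univ.filter (fun v => v ∈ e)).card ≤ 2 := by
        induction e using Sym2.ind with
        | _ a c =>
          refine (Finset.card_le_card (?_ : _ ⊆ ({a, c} : Finset (Fin n)))).trans
            Finset.card_le_two
          intro v hv
          rw [Finset.mem_filter, Sym2.mem_iff] at hv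
          simpa using hv.2
      omega
    · have h1 : free A E ⊆ (Finset.univ.filter (fun v : Fin n => j ≤ deg A v)).biUnion
          (fun v => (board n).filter (fun e => v ∈ e)) := by
        intro f hf
        have h2 := hj.trans (hmin f hf)
        have h3 : ∃ v, v ∈ f ∧ j ≤ deg A v := by
          rcases Nat.eq_zero_or_pos j with h0 | h0
          · subst h0
            induction f using Sym2.ind with
            | _ a c => exact ⟨a, Sym2.mem_mk_left a c, Nat.zero_le _⟩
          · rw [Finset.le_sup_iff (show (⊥ : ℕ) < j from h0)] at h2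
            obtain ⟨v, hv, hv2⟩ := h2
            exact ⟨v, (Finset.mem_filter.1 hv).2, hv2⟩
        obtain ⟨v, hv, hv2⟩ := h3
        rw [Finset.mem_biUnion]
        refine ⟨v, Finset.mem_filter.2 ⟨Finset.mem_univ _, hv2⟩, Finset.mem_filter.2 ⟨?_, hv⟩⟩
        exact (Finset.mem_sdiff.1 hf).1
      refine (Finset.card_le_card h1).trans (Finset.card_biUnion_le_card_mul _ _ _ ?_)
      intro v _
      exact card_incidence v
  · left
    push Not at hj
    apply Finset.card_le_card
    intro v hv
    rw [Finset.mem_filter] at hv ⊢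
    refine ⟨Finset.mem_univ _, ?_⟩
    by_cases hve : v ∈ e
    · exfalso
      have h1 : deg A v ≤ (Finset.univ.filter (fun v => v ∈ e)).sup (deg A) :=
        Finset.le_sup (f := deg A) (Finset.mem_filter.2 ⟨Finset.mem_univ _, hve⟩)
      have h2 := deg_insert_le A e v
      omega
    · have h2 := hv.2
      rw [deg_insert_of_notMem hve] at h2
      exact h2

/-- The invariant of the greedy strategy. -/
def Inv (n b : ℕ) (W : ℕ → ℕ) (A : Finset (Sym2 (Fin n))) (F : ℕ) : Prop :=
  ∀ j, nv (j + 1) A ≤ 2 * ((W j * (n - 1) - F) / (b + 1))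

lemma Inv.le {b ρ : ℕ} {W : ℕ → ℕ} (hρ1 : 1 ≤ ρ) (hρ : ρ ≤ b + 1) (hW0 : W 0 = n)
    (hW : ∀ j, W (j + 1) = 2 * (W j * (n - 1) / ρ)) {A : Finset (Sym2 (Fin n))} {F : ℕ}
    (h : Inv n b W A F) (j : ℕ) : nv j A ≤ W j := by
  cases j with
  | zero => rw [hW0]; exact nv_le_n _ _
  | succ j =>
    refine (h j).trans ?_
    rw [hW]
    apply Nat.mul_le_mul_left
    exact Nat.div_le_div (Nat.sub_le _ _) hρ (by omega)

lemma Inv.step {b ρ : ℕ} {W : ℕ → ℕ} (hρ1 : 1 ≤ ρ) (hρ : ρ ≤ b + 1) (hW0 : W 0 = n)
    (hW : ∀ j, W (j + 1) = 2 * (W j * (n - 1) / ρ)) {A A' : Finset (Sym2 (Fin n))} {F : ℕ}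
    (h : Inv n b W A F) (hg : ∀ j, nv (j + 1) A' ≤ nv (j + 1) A ∨
      (nv (j + 1) A' ≤ nv (j + 1) A + 2 ∧ F ≤ nv j A * (n - 1)))
    (hF : b + 1 ≤ F) : Inv n b W A' (F - (b + 1)) := by
  intro j
  rcases hg j with h1 | ⟨h1, h2⟩
  · refine h1.trans ((h j).trans ?_)
    apply Nat.mul_le_mul_left
    apply Nat.div_le_div_right
    omega
  · have h3 : F ≤ W j * (n - 1) :=
      h2.trans (Nat.mul_le_mul_right _ (h.le hρ1 hρ hW0 hW j))
    have h4 : W j * (n - 1) - (F - (b + 1)) = (W j * (n - 1) - F) + (b + 1) := by omega
    rw [h4, Nat.add_div_right _ (by omega : 0 < b + 1)]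
    have := h j
    omega

lemma Inv.after {b ρ : ℕ} {W : ℕ → ℕ} (hρ1 : 1 ≤ ρ) (hρ : ρ ≤ b + 1) (hW0 : W 0 = n)
    (hW : ∀ j, W (j + 1) = 2 * (W j * (n - 1) / ρ)) {A A' : Finset (Sym2 (Fin n))} {F : ℕ}
    (h : Inv n b W A F) (hg : ∀ j, nv (j + 1) A' ≤ nv (j + 1) A ∨
      (nv (j + 1) A' ≤ nv (j + 1) A + 2 ∧ F ≤ nv j A * (n - 1)))
    (hF : ρ ≤ F) (j : ℕ) : nv j A' ≤ W j := by
  cases j with
  | zero => rw [hW0]; exact nv_le_n _ _
  | succ j =>
    rcases hg j with h1 | ⟨h1, h2⟩
    · exact h1.trans (h.le hρ1 hρ hW0 hW (j + 1))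
    · have h3 : F ≤ W j * (n - 1) :=
        h2.trans (Nat.mul_le_mul_right _ (h.le hρ1 hρ hW0 hW j))
      have h4 := h j
      rw [hW]
      have h5 : (W j * (n - 1) - F) / (b + 1) ≤ (W j * (n - 1) - ρ) / ρ :=
        Nat.div_le_div (by omega) hρ (by omega)
      have h6 : W j * (n - 1) / ρ = (W j * (n - 1) - ρ) / ρ + 1 := by
        rw [← Nat.add_div_right _ (by omega : 0 < ρ), Nat.sub_add_cancel (hF.trans h3)]
      omega

/-- Avoider wins if the sequence for `ρ = b + 1` vanishes at `k - 1`. -/
theorem avoider_wins_one {k b : ℕ} {W : ℕ → ℕ} (hk : 1 ≤ k) (hW0 : W 0 = n)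
    (hW : ∀ j, W (j + 1) = 2 * (W j * (n - 1) / (b + 1))) (hWk : W (k - 1) = 0) :
    AvoiderWins n k b := by
  have key : ∀ (N : ℕ) (A E : Finset (Sym2 (Fin n))), (free A E).card ≤ N →
      (free A E = ∅ → ∀ v, deg A v < k) →
      ((free A E).Nonempty → Inv n b W A (free A E).card) → AvoiderWinsFrom n k b A E := by
    intro N
    induction N with
    | zero =>
      intro A E hN h1 _
      have h0 : free A E = ∅ := by rw [← Finset.card_eq_zero]; omega
      exact AvoiderWinsFrom.stop A E h0 (h1 h0)
    | succ N ih =>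
      intro A E hN h1 h2
      rcases (free A E).eq_empty_or_nonempty with h0 | h0
      · exact AvoiderWinsFrom.stop A E h0 (h1 h0)
      have hI := h2 h0
      obtain ⟨e, he, hg⟩ := greedy A E h0
      refine AvoiderWinsFrom.round A E e he fun T hT hTc => ?_
      have c1 := card_free_insert he
      have c2 := card_free_union hT
      have hdeg : ∀ v, deg (insert e A) v < k := by
        intro v
        by_cases hF : b + 1 ≤ (free A E).card
        · have h3 := hI.after (Nat.succ_pos b) le_rfl hW0 hW hg hF (k - 1)
          rw [hWk, Nat.le_zero] at h3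
          have := nv_eq_zero h3 v
          omega
        · have h3 := hI.le (Nat.succ_pos b) le_rfl hW0 hW (k - 1)
          rw [hWk, Nat.le_zero] at h3
          have h4 := nv_eq_zero h3 v
          have h5 := deg_insert_le A e v
          omega
      apply ih
      · omega
      · exact fun _ => hdeg
      · intro h3
        rw [← Finset.card_pos] at h3
        have hF : b + 1 ≤ (free A E).card := by
          by_contra hF
          push Not at hF
          have : min b (free (insert e A) E).card = (free (insert e A) E).card := by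
            apply min_eq_right; omega
          omega
        have hF' : (free (insert e A) (E ∪ T)).card = (free A E).card - (b + 1) := by
          have : min b (free (insert e A) E).card = b := by
            apply min_eq_left; omega
          omega
        rw [hF']
        exact hI.step (Nat.succ_pos b) le_rfl hW0 hW hg hF
  apply key _ ∅ ∅ le_rfl
  · intro _ v
    simp [deg]
    omega
  · intro _ j
    have : nv (j + 1) (∅ : Finset (Sym2 (Fin n))) = 0 := by
      simp [nv, deg]
    omega

/-- Avoider wins if the sequence for the number `ρ = r` of edges free at his last turn vanishes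
at `k`. -/
theorem avoider_wins_two {k b r : ℕ} {W : ℕ → ℕ} (hk : 1 ≤ k) (hr1 : 1 ≤ r) (hr2 : r ≤ b + 1)
    (hr : n.choose 2 % (b + 1) = r % (b + 1)) (hW0 : W 0 = n)
    (hW : ∀ j, W (j + 1) = 2 * (W j * (n - 1) / r)) (hWk : W k = 0) :
    AvoiderWins n k b := by
  have key : ∀ (N : ℕ) (A E : Finset (Sym2 (Fin n))), (free A E).card ≤ N →
      (free A E = ∅ → ∀ v, deg A v < k) →
      ((free A E).Nonempty → Inv n b W A (free A E).card ∧
        (free A E).card % (b + 1) = r % (b + 1)) → AvoiderWinsFrom n k b A E := by
    intro N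
    induction N with
    | zero =>
      intro A E hN h1 _
      have h0 : free A E = ∅ := by rw [← Finset.card_eq_zero]; omega
      exact AvoiderWinsFrom.stop A E h0 (h1 h0)
    | succ N ih =>
      intro A E hN h1 h2
      rcases (free A E).eq_empty_or_nonempty with h0 | h0
      · exact AvoiderWinsFrom.stop A E h0 (h1 h0)
      obtain ⟨hI, hcg⟩ := h2 h0
      obtain ⟨e, he, hg⟩ := greedy A E h0
      refine AvoiderWinsFrom.round A E e he fun T hT hTc => ?_
      have c1 := card_free_insert he
      have c2 := card_free_union hT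
      have hFr : r ≤ (free A E).card := by
        rcases Nat.lt_or_ge (free A E).card (b + 1) with h3 | h3
        · rw [Nat.mod_eq_of_lt h3] at hcg
          rcases Nat.lt_or_ge r (b + 1) with h4 | h4
          · rw [Nat.mod_eq_of_lt h4] at hcg
            omega
          · have h5 : r = b + 1 := by omega
            rw [h5, Nat.mod_self] at hcg
            have := Finset.card_pos.2 h0
            omega
        · omega
      have hdeg : ∀ v, deg (insert e A) v < k := by
        intro v
        have h3 := hI.after hr1 hr2 hW0 hW hg hFr k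
        rw [hWk, Nat.le_zero] at h3
        exact nv_eq_zero h3 v
      apply ih
      · omega
      · exact fun _ => hdeg
      · intro h3
        rw [← Finset.card_pos] at h3
        have hF : b + 1 ≤ (free A E).card := by
          by_contra hF
          push Not at hF
          have : min b (free (insert e A) E).card = (free (insert e A) E).card := by
            apply min_eq_right; omega
          omega
        have hF' : (free (insert e A) (E ∪ T)).card = (free A E).card - (b + 1) := by
          have : min b (free (insert e A) E).card = b := by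
            apply min_eq_left; omega
          omega
        rw [hF']
        refine ⟨hI.step hr1 hr2 hW0 hW hg hF, ?_⟩
        rw [← hcg]
        exact (Nat.mod_eq_sub_mod hF).symm
  apply key _ ∅ ∅ le_rfl
  · intro _ v
    simp [deg]
    omega
  · intro _
    refine ⟨fun j => ?_, ?_⟩
    · have : nv (j + 1) (∅ : Finset (Sym2 (Fin n))) = 0 := by
        simp [nv, deg]
      omega
    · rw [free_empty, card_board]
      exact hr

end Pool.Agent.R82.AE
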