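import Mathlib

/-!
The strict (1 : b) Avoider-Enforcer k-star game on the edge set of the complete graph on n
vertices: definitions.
-/

namespace Pool.Agent.R82.AE

open Finset

/-- The board: the edges of the complete graph on `Fin n`. -/
def board (n : ℕ) : Finset (Sym2 (Fin n)) := Finset.univ.filter (fun e => ¬ e.IsDiag)

/-- The edges not yet claimed, when Avoider has claimed `A` and Enforcer has claimed `E`. -/
def free {n : ℕ} (A E : Finset (Sym2 (Fin n))) : Finset (Sym2 (Fin n)) := board n \ (A ∪ E)

/-- The degree of the vertex `v` in the graph with edge set `A`. -/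
def deg {n : ℕ} (A : Finset (Sym2 (Fin n))) (v : Fin n) : ℕ := (A.filter (fun e => v ∈ e)).card

/-- `EnforcerWinsFrom n k b A E`: Avoider owns `A`, Enforcer owns `E`, it is Avoider's turn, and
Enforcer has a winning strategy. Either the game is over and Avoider's graph has a vertex of degree
at least `k`; or there are unclaimed edges and for every edge `e` that Avoider may claim Enforcer
has a reply `T e`, consisting of exactly `b` unclaimed edges (all the unclaimed ones if fewer than
`b` remain), after which he is again in a winning position. -/
inductive EnforcerWinsFrom (n k b : ℕ) : Finset (Sym2 (Fin n)) → Finset (Sym2 (Fin n)) → Prop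
  | stop (A E : Finset (Sym2 (Fin n))) : free A E = ∅ → (∃ v, k ≤ deg A v) →
      EnforcerWinsFrom n k b A E
  | round (A E : Finset (Sym2 (Fin n))) (T : Sym2 (Fin n) → Finset (Sym2 (Fin n))) :
      (free A E).Nonempty →
      (∀ e ∈ free A E, T e ⊆ free (insert e A) E) →
      (∀ e ∈ free A E, (T e).card = min b (free (insert e A) E).card) →
      (∀ e ∈ free A E, EnforcerWinsFrom n k b (insert e A) (E ∪ T e)) →
      EnforcerWinsFrom n k b A E

/-- `AvoiderWinsFrom n k b A E`: Avoider owns `A`, Enforcer owns `E`, it is Avoider's turn, and
Avoider has a winning strategy. Either the game is over and all degrees in Avoider's graph are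
smaller than `k`; or Avoider can claim an unclaimed edge `e` such that after every legal reply `T`
of Enforcer he is again in a winning position. -/
inductive AvoiderWinsFrom (n k b : ℕ) : Finset (Sym2 (Fin n)) → Finset (Sym2 (Fin n)) → Prop
  | stop (A E : Finset (Sym2 (Fin n))) : free A E = ∅ → (∀ v, deg A v < k) →
      AvoiderWinsFrom n k b A E
  | round (A E : Finset (Sym2 (Fin n))) (e : Sym2 (Fin n)) : e ∈ free A E →
      (∀ T, T ⊆ free (insert e A) E → T.card = min b (free (insert e A) E).card →
        AvoiderWinsFrom n k b (insert e A) (E ∪ T)) →
      AvoiderWinsFrom n k b A E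

/-- Enforcer wins the strict `(1 : b)` `k`-star game on the complete graph with `n` vertices. -/
def EnforcerWins (n k b : ℕ) : Prop := EnforcerWinsFrom n k b ∅ ∅

/-- Avoider wins the strict `(1 : b)` `k`-star game on the complete graph with `n` vertices. -/
def AvoiderWins (n k b : ℕ) : Prop := AvoiderWinsFrom n k b ∅ ∅

/-- The lower threshold bias: the largest `f` such that Enforcer wins for every bias `b` with
`1 ≤ b ≤ f`. -/
noncomputable def fminus (n k : ℕ) : ℕ :=
  sSup {f : ℕ | ∀ b, 1 ≤ b → b ≤ f → EnforcerWins n k b}

/-- The upper threshold bias: the smallest `f` such that Avoider wins for every bias `b > f`. -/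
noncomputable def fplus (n k : ℕ) : ℕ :=
  sInf {f : ℕ | ∀ b, f < b → AvoiderWins n k b}

/-! ### Elementary facts -/

variable {n : ℕ}

lemma mem_free {A E : Finset (Sym2 (Fin n))} {e : Sym2 (Fin n)} :
    e ∈ free A E ↔ ¬ e.IsDiag ∧ e ∉ A ∧ e ∉ E := by
  simp [free, board]

lemma free_insert (A E : Finset (Sym2 (Fin n))) (e : Sym2 (Fin n)) :
    free (insert e A) E = (free A E).erase e := by
  ext f
  simp only [mem_free, Finset.mem_erase, Finset.mem_insert]
  tauto

lemma free_union (A E T : Finset (Sym2 (Fin n))) :
    free A (E ∪ T) = free A E \ T := by
  ext f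
  simp only [mem_free, Finset.mem_sdiff, Finset.mem_union]
  tauto

lemma deg_mono {A A' : Finset (Sym2 (Fin n))} (h : A ⊆ A') (v : Fin n) : deg A v ≤ deg A' v :=
  Finset.card_le_card (Finset.filter_subset_filter _ h)

lemma deg_insert_of_mem {A : Finset (Sym2 (Fin n))} {e : Sym2 (Fin n)} {v : Fin n}
    (he : e ∉ A) (hv : v ∈ e) : deg (insert e A) v = deg A v + 1 := by
  unfold deg
  rw [Finset.filter_insert, if_pos hv, Finset.card_insert_of_notMem]
  simp [he]

lemma deg_insert_of_notMem {A : Finset (Sym2 (Fin n))} {e : Sym2 (Fin n)} {v : Fin n}
    (hv : v ∉ e) : deg (insert e A) v = deg A v := by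
  unfold deg
  rw [Finset.filter_insert, if_neg hv]

lemma deg_insert_le (A : Finset (Sym2 (Fin n))) (e : Sym2 (Fin n)) (v : Fin n) :
    deg (insert e A) v ≤ deg A v + 1 := by
  unfold deg
  rw [Finset.filter_insert]
  split_ifs
  · exact Finset.card_insert_le _ _
  · omega

/-- Determinacy of the finite game. -/
theorem avoider_iff (k b : ℕ) (A E : Finset (Sym2 (Fin n))) :
    AvoiderWinsFrom n k b A E ↔ ¬ EnforcerWinsFrom n k b A E := by
  constructor
  · intro h
    induction h with
    | stop A E h0 h1 =>
      intro h
      cases h with
      | stop _ _ _ h2 =>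
        obtain ⟨v, hv⟩ := h2
        have := h1 v
        omega
      | round _ _ T h2 => rw [h0] at h2; simp at h2
    | round A E e he _ ih =>
      intro h
      cases h with
      | stop _ _ h0 _ => rw [h0] at he; simp at he
      | round _ _ T _ h3 h4 h5 => exact ih (T e) (h3 e he) (h4 e he) (h5 e he)
  · have key : ∀ m : ℕ, ∀ A E : Finset (Sym2 (Fin n)), (free A E).card ≤ m →
        ¬ EnforcerWinsFrom n k b A E → AvoiderWinsFrom n k b A E := by
      intro m
      induction m with
      | zero =>
        intro A E hm h
        have h0 : free A E = ∅ := by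
          rw [← Finset.card_eq_zero]; omega
        refine AvoiderWinsFrom.stop A E h0 fun v => ?_
        by_contra hv
        exact h (EnforcerWinsFrom.stop A E h0 ⟨v, by omega⟩)
      | succ m ih =>
        intro A E hm h
        rcases (free A E).eq_empty_or_nonempty with h0 | h0
        · refine AvoiderWinsFrom.stop A E h0 fun v => ?_
          by_contra hv
          exact h (EnforcerWinsFrom.stop A E h0 ⟨v, by omega⟩)
        · by_contra hc
          apply h
          have h1 : ∀ e ∈ free A E, ∃ T, T ⊆ free (insert e A) E ∧
              T.card = min b (free (insert e A) E).card ∧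
              EnforcerWinsFrom n k b (insert e A) (E ∪ T) := by
            intro e he
            by_contra hc2
            push Not at hc2
            apply hc
            refine AvoiderWinsFrom.round A E e he fun T hT hT2 => ?_
            apply ih
            · rw [free_union]
              have := Finset.card_le_card (Finset.sdiff_subset (s := free (insert e A) E) (t := T))
              have h2 : (free (insert e A) E).card < (free A E).card := by
                rw [free_insert]
                exact Finset.card_erase_lt_of_mem he
              omega
            · exact hc2 T hT hT2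
          choose! T hT1 hT2 hT3 using h1
          exact EnforcerWinsFrom.round A E T h0 hT1 hT2 hT3
    exact key _ A E le_rfl

end Pool.Agent.R82.AE
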