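import Pool.Agent.R82.AE.Defs

/-!
Enforcer's strategy in the strict (1 : b) Avoider-Enforcer k-star game.
-/

namespace Pool.Agent.R82.AE

open Finset

variable {n : ℕ}

/-- It is Enforcer's turn and he has a winning strategy. -/
def EP (n k b : ℕ) (A E : Finset (Sym2 (Fin n))) : Prop :=
  ∃ T, T ⊆ free A E ∧ T.card = min b (free A E).card ∧ EnforcerWinsFrom n k b A (E ∪ T)

lemma round_of_EP {k b : ℕ} {A E : Finset (Sym2 (Fin n))} (h0 : (free A E).Nonempty)
    (h : ∀ e ∈ free A E, EP n k b (insert e A) E) : EnforcerWinsFrom n k b A E := by
  choose! T h1 h2 h3 using h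
  exact EnforcerWinsFrom.round A E T h0 h1 h2 h3

lemma card_free_insert {A E : Finset (Sym2 (Fin n))} {e : Sym2 (Fin n)} (he : e ∈ free A E) :
    (free (insert e A) E).card + 1 = (free A E).card := by
  rw [free_insert]
  exact Finset.card_erase_add_one he

lemma card_free_union {A E T : Finset (Sym2 (Fin n))} (hT : T ⊆ free A E) :
    (free A (E ∪ T)).card + T.card = (free A E).card := by
  rw [free_union]
  exact Finset.card_sdiff_add_card_eq_card hT

lemma win_of_star {k b : ℕ} : ∀ (m : ℕ) (A E : Finset (Sym2 (Fin n))), (free A E).card ≤ m →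
    (∃ v, k ≤ deg A v) → EnforcerWinsFrom n k b A E := by
  intro m
  induction m with
  | zero =>
    intro A E hm h
    exact EnforcerWinsFrom.stop A E (by rw [← Finset.card_eq_zero]; omega) h
  | succ m ih =>
    intro A E hm h
    rcases (free A E).eq_empty_or_nonempty with h0 | h0
    · exact EnforcerWinsFrom.stop A E h0 h
    · apply round_of_EP h0
      intro e he
      obtain ⟨T, hT, hT2⟩ := Finset.exists_subset_card_eq
        (min_le_right b (free (insert e A) E).card)
      refine ⟨T, hT, hT2, ih _ _ ?_ ?_⟩
      · have h1 := card_free_insert he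
        have h2 := card_free_union hT
        omega
      · obtain ⟨v, hv⟩ := h
        exact ⟨v, hv.trans (deg_mono (Finset.subset_insert _ _) v)⟩

lemma EP_of_star {k b : ℕ} {A E : Finset (Sym2 (Fin n))} (h : ∃ v, k ≤ deg A v) :
    EP n k b A E := by
  obtain ⟨T, hT, hT2⟩ := Finset.exists_subset_card_eq (min_le_right b (free A E).card)
  exact ⟨T, hT, hT2, win_of_star _ _ _ le_rfl h⟩

/-- The congruence satisfied by the number of unclaimed edges at Enforcer's turns. -/
def Cg (b s : ℕ) (A E : Finset (Sym2 (Fin n))) : Prop :=
  ((free A E).card + 1) % (b + 1) = s % (b + 1)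

/-- The families used by Enforcer. -/
def Fam (n j u m : ℕ) (A E : Finset (Sym2 (Fin n))) : Prop :=
  ∃ (U : Finset (Fin n)) (M : Fin n → Finset (Sym2 (Fin n))), U.card = u ∧
    (∀ x ∈ U, j ≤ deg A x ∧ M x ⊆ free A E ∧ (M x).card = m ∧ ∀ e ∈ M x, x ∈ e) ∧
    (∀ x ∈ U, ∀ y ∈ U, x ≠ y → Disjoint (M x) (M y))

lemma Cg_step {b s : ℕ} {A E T : Finset (Sym2 (Fin n))} {e : Sym2 (Fin n)} (h : Cg b s A E)
    (hT : T ⊆ free A E) (hTc : T.card = b) (he : e ∈ free A (E ∪ T)) :
    Cg b s (insert e A) (E ∪ T) := by
  unfold Cg at h ⊢
  have h1 := card_free_union hT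
  have h2 := card_free_insert he
  have h3 : (free A E).card + 1 = ((free (insert e A) (E ∪ T)).card + 1) + (b + 1) := by omega
  rw [h3, Nat.add_mod_right] at h
  exact h

/-- The final stage. -/
theorem final {k b u m r : ℕ} (hk : 1 ≤ k) (hr1 : 1 ≤ r) (hQ : r ≤ u * m) :
    ∀ (N : ℕ) (A E : Finset (Sym2 (Fin n))), (free A E).card ≤ N → Cg b r A E →
      Fam n (k - 1) u m A E → EP n k b A E := by
  intro N
  induction N with
  | zero =>
    intro A E hN _ hF
    exfalso
    obtain ⟨U, M, hU, hM, hd⟩ := hF
    have h0 : free A E = ∅ := by rw [← Finset.card_eq_zero]; omega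
    have hu : 0 < u := by
      rcases Nat.eq_zero_or_pos u with h | h
      · subst h; simp at hQ; omega
      · exact h
    obtain ⟨x, hx⟩ := Finset.card_pos.1 (by omega : 0 < U.card)
    obtain ⟨_, h1, h2, _⟩ := hM x hx
    rw [h0, Finset.subset_empty] at h1
    rw [h1] at h2
    simp at h2
    subst h2
    simp at hQ
    omega
  | succ N ih =>
    intro A E hN hcg hF
    obtain ⟨U, M, hU, hM, hd⟩ := hF
    set MM := U.biUnion M with hMM
    have hMMfree : MM ⊆ free A E := by
      intro e he
      rw [hMM, Finset.mem_biUnion] at he
      obtain ⟨x, hx, hex⟩ := he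
      exact (hM x hx).2.1 hex
    have hMMcard : MM.card = u * m := by
      rw [hMM, Finset.card_biUnion hd, Finset.sum_congr rfl (fun x hx => (hM x hx).2.2.1),
        Finset.sum_const, hU, smul_eq_mul]
    have hstar : ∀ (E' : Finset (Sym2 (Fin n))), ∀ e ∈ MM, EP n k b (insert e A) E' := by
      intro E' e he
      have he0 := hMMfree he
      rw [hMM, Finset.mem_biUnion] at he
      obtain ⟨x, hx, hex⟩ := he
      apply EP_of_star
      refine ⟨x, ?_⟩
      rw [deg_insert_of_mem (mem_free.1 he0).2.1 ((hM x hx).2.2.2 e hex)]
      have := (hM x hx).1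
      omega
    by_cases hJ : b ≤ (free A E \ MM).card
    · obtain ⟨T, hT, hTc⟩ := Finset.exists_subset_card_eq hJ
      have hTf : T ⊆ free A E := hT.trans Finset.sdiff_subset
      have hTM : Disjoint T MM := Finset.disjoint_of_subset_left hT Finset.sdiff_disjoint
      refine ⟨T, hTf, ?_, ?_⟩
      · have := Finset.card_le_card hTf
        omega
      · have hsub : MM ⊆ free A (E ∪ T) := by
          rw [free_union]
          intro e he
          rw [Finset.mem_sdiff]
          exact ⟨hMMfree he, fun h => Finset.disjoint_left.1 hTM h he⟩
        have hne : (free A (E ∪ T)).Nonempty := by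
          rw [← Finset.card_pos]
          have := Finset.card_le_card hsub
          omega
        apply round_of_EP hne
        intro e he
        by_cases heM : e ∈ MM
        · exact hstar _ e heM
        · apply ih
          · have h1 := card_free_union hTf
            have h2 := card_free_insert he
            omega
          · exact Cg_step hcg hTf hTc he
          · refine ⟨U, M, hU, fun x hx => ⟨?_, ?_, (hM x hx).2.2.1, (hM x hx).2.2.2⟩, hd⟩
            · exact (hM x hx).1.trans (deg_mono (Finset.subset_insert _ _) x)
            · intro f hf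
              have hfM : f ∈ MM := by rw [hMM, Finset.mem_biUnion]; exact ⟨x, hx, hf⟩
              rw [free_insert, Finset.mem_erase]
              refine ⟨fun h => heM (h ▸ hfM), hsub hfM⟩
    · push Not at hJ
      have hFc : (free A E \ MM).card + MM.card = (free A E).card :=
        Finset.card_sdiff_add_card_eq_card hMMfree
      have hFr : b + r ≤ (free A E).card := by
        unfold Cg at hcg
        have h1 : r ≡ (free A E).card + 1 [MOD (b + 1)] := hcg.symm
        have h2 := (Nat.modEq_iff_dvd' (by omega : r ≤ (free A E).card + 1)).1 h1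
        have h3 := Nat.le_of_dvd (by omega) h2
        omega
      obtain ⟨T', hT', hTc'⟩ := Finset.exists_subset_card_eq
        (show b - (free A E \ MM).card ≤ MM.card by omega)
      set T := (free A E \ MM) ∪ T' with hTdef
      have hTf : T ⊆ free A E := by
        rw [hTdef]
        exact Finset.union_subset Finset.sdiff_subset (hT'.trans hMMfree)
      have hTc : T.card = b := by
        rw [hTdef, Finset.card_union_of_disjoint, hTc']
        · omega
        · exact Finset.disjoint_of_subset_right hT' Finset.sdiff_disjoint
      refine ⟨T, hTf, ?_, ?_⟩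
      · omega
      · have hne : (free A (E ∪ T)).Nonempty := by
          rw [← Finset.card_pos]
          have := card_free_union hTf
          omega
        apply round_of_EP hne
        intro e he
        apply hstar
        rw [free_union, Finset.mem_sdiff] at he
        by_contra heM
        apply he.2
        rw [hTdef, Finset.mem_union, Finset.mem_sdiff]
        exact Or.inl ⟨he.1, heM⟩

/-- The invariant inside a stage. -/
structure StInv (n k b j s : ℕ) (U : Finset (Fin n)) (K R : Fin n → Finset (Sym2 (Fin n)))
    (A E : Finset (Sym2 (Fin n))) : Prop where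
  hA : ∀ x ∈ U, j ≤ deg A x
  hKE : ∀ x ∈ U, Disjoint (K x) E
  hB : ∀ x ∈ U, Disjoint (K x ∪ R x) A ∨ j + 1 ≤ deg A x
  hc : (E ∩ U.biUnion (fun x => K x ∪ R x)).card ≤
    b * (A ∩ U.biUnion (fun x => K x ∪ R x)).card
  hcg : Cg b s A E

/-- One stage. -/
theorem stage_aux {k b j u m g s : ℕ} (hk : 1 ≤ k) (hg : g ≤ b) (hb : 1 ≤ b)
    (hug : 2 * b ≤ u * g) (hm : k ≤ m)
    (next : ∀ A E : Finset (Sym2 (Fin n)), Cg b s A E →
      Fam n (j + 1) (u * g / (2 * b * k) + 1) (m - k) A E → EP n k b A E)
    (U : Finset (Fin n)) (K R : Fin n → Finset (Sym2 (Fin n))) (hU : U.card = u)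
    (hinc : ∀ x ∈ U, ∀ e ∈ K x ∪ R x, x ∈ e ∧ ¬ e.IsDiag)
    (hKR : ∀ x ∈ U, Disjoint (K x) (R x))
    (hKc : ∀ x ∈ U, (K x).card = m) (hRc : ∀ x ∈ U, (R x).card = g)
    (hd : ∀ x ∈ U, ∀ y ∈ U, x ≠ y → Disjoint (K x ∪ R x) (K y ∪ R y)) :
    ∀ (N : ℕ) (A E : Finset (Sym2 (Fin n))), (free A E).card ≤ N →
      StInv n k b j s U K R A E → EP n k b A E := by
  intro N
  induction N with
  | zero =>
    intro A E hN hI
    -- no free edges: some K x is completely Avoider's
    have h0 : free A E = ∅ := by rw [← Finset.card_eq_zero]; omega
    have hu : 0 < U.card := by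
      rw [hU]
      rcases Nat.eq_zero_or_pos u with h | h
      · subst h; omega
      · exact h
    obtain ⟨x, hx⟩ := Finset.card_pos.1 hu
    apply EP_of_star
    refine ⟨x, ?_⟩
    calc k ≤ (K x).card := by rw [hKc x hx]; exact hm
      _ ≤ deg A x := by
        apply Finset.card_le_card
        intro e he
        rw [Finset.mem_filter]
        have h1 := hinc x hx e (Finset.mem_union_left _ he)
        refine ⟨?_, h1.1⟩
        by_contra hA
        have : e ∈ free A E := mem_free.2 ⟨h1.2, hA, Finset.disjoint_left.1 (hI.hKE x hx) he⟩
        rw [h0] at this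
        simp at this
  | succ N ih =>
    intro A E hN hI
    by_cases hst : ∃ v, k ≤ deg A v
    · exact EP_of_star hst
    push Not at hst
    set M : Fin n → Finset (Sym2 (Fin n)) := fun x => K x ∪ R x with hM
    set MM := U.biUnion M with hMM
    set Up := U.filter (fun x => ¬ Disjoint (M x) A) with hUp
    have hUpU : Up ⊆ U := Finset.filter_subset _ _
    set RR := (U \ Up).biUnion R with hRR
    set J := free A E \ MM with hJ
    set f := free A E ∩ RR with hf
    have hRRM : RR ⊆ MM := by
      intro e he
      rw [hRR, Finset.mem_biUnion] at he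
      obtain ⟨x, hx, hex⟩ := he
      rw [hMM, Finset.mem_biUnion]
      exact ⟨x, (Finset.mem_sdiff.1 hx).1, Finset.mem_union_right _ hex⟩
    have hJf : Disjoint J f := by
      rw [Finset.disjoint_left]
      intro e h1 h2
      exact (Finset.mem_sdiff.1 h1).2 (hRRM (Finset.mem_inter.1 h2).2)
    by_cases hend : J.card + f.card < b
    · -- the stage ends
      apply next A E hI.hcg
      have ha : (A ∩ MM).card ≤ Up.card * (k - 1) := by
        have h1 : A ∩ MM ⊆ Up.biUnion (fun x => A ∩ M x) := by
          intro e he
          rw [Finset.mem_inter, hMM, Finset.mem_biUnion] at he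
          obtain ⟨he1, x, hx, hex⟩ := he
          rw [Finset.mem_biUnion]
          refine ⟨x, ?_, Finset.mem_inter.2 ⟨he1, hex⟩⟩
          rw [hUp, Finset.mem_filter]
          exact ⟨hx, fun h => Finset.disjoint_left.1 h hex he1⟩
        refine (Finset.card_le_card h1).trans ?_
        apply Finset.card_biUnion_le_card_mul
        intro x hx
        have hxU := hUpU hx
        have h2 : (A ∩ M x).card ≤ deg A x := by
          apply Finset.card_le_card
          intro e he
          rw [Finset.mem_inter] at he
          rw [Finset.mem_filter]
          exact ⟨he.1, (hinc x hxU e he.2).1⟩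
        have := hst x
        omega
      have hR : g * (U.card - Up.card) ≤ f.card + (E ∩ MM).card := by
        have h1 : RR.card = g * (U.card - Up.card) := by
          rw [hRR, Finset.card_biUnion, Finset.sum_congr rfl
            (fun x hx => hRc x (Finset.mem_sdiff.1 hx).1), Finset.sum_const, smul_eq_mul,
            Finset.card_sdiff_of_subset hUpU, mul_comm]
          intro x hx y hy hxy
          have := hd x (Finset.mem_sdiff.1 hx).1 y (Finset.mem_sdiff.1 hy).1 hxy
          exact Finset.disjoint_of_subset_left Finset.subset_union_right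
            (Finset.disjoint_of_subset_right Finset.subset_union_right this)
        rw [← h1]
        refine (Finset.card_le_card (?_ : RR ⊆ f ∪ (E ∩ MM))).trans (Finset.card_union_le _ _)
        intro e he
        have heM := hRRM he
        have he' := he
        rw [hRR, Finset.mem_biUnion] at he
        obtain ⟨x, hx, hex⟩ := he
        have hxU := (Finset.mem_sdiff.1 hx).1
        have hxp : Disjoint (M x) A := by
          by_contra h
          exact (Finset.mem_sdiff.1 hx).2 (Finset.mem_filter.2 ⟨hxU, h⟩)
        have heA : e ∉ A := Finset.disjoint_left.1 hxp (Finset.mem_union_right _ hex)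
        rw [Finset.mem_union]
        by_cases heE : e ∈ E
        · exact Or.inr (Finset.mem_inter.2 ⟨heE, heM⟩)
        · left
          rw [hf, Finset.mem_inter]
          exact ⟨mem_free.2 ⟨(hinc x hxU e (Finset.mem_union_right _ hex)).2, heA, heE⟩, he'⟩
      have hUpc : Up.card ≤ u := hU ▸ Finset.card_le_card hUpU
      have hkey : u * g / (2 * b * k) + 1 ≤ Up.card := by
        rw [Nat.add_one_le_iff, Nat.div_lt_iff_lt_mul (by positivity)]
        have h1 : g * u ≤ f.card + (E ∩ MM).card + g * Up.card := by
          rw [hU] at hR
          have : g * u = g * (u - Up.card) + g * Up.card := by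
            rw [← Nat.mul_add, Nat.sub_add_cancel hUpc]
          omega
        have h2 : (E ∩ MM).card ≤ b * (Up.card * (k - 1)) :=
          hI.hc.trans (Nat.mul_le_mul_left _ ha)
        have h3 : g * Up.card ≤ b * Up.card := Nat.mul_le_mul_right _ hg
        have h4 : b * (Up.card * (k - 1)) + b * Up.card = b * (Up.card * k) := by
          obtain ⟨k', rfl⟩ : ∃ k', k = k' + 1 := ⟨k - 1, by omega⟩
          simp only [Nat.add_sub_cancel]
          ring
        have h5 : Up.card * (2 * b * k) = 2 * (b * (Up.card * k)) := by ring
        rw [h5]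
        have h6 : u * g = g * u := mul_comm _ _
        omega
      obtain ⟨U', hU', hU'c⟩ := Finset.exists_subset_card_eq hkey
      have hex : ∀ x ∈ U', ∃ M' : Finset (Sym2 (Fin n)), M' ⊆ K x \ A ∧ M'.card = m - k := by
        intro x hx
        have hxU := hUpU (hU' hx)
        apply Finset.exists_subset_card_eq
        have h1 : (K x ∩ A).card ≤ deg A x := by
          apply Finset.card_le_card
          intro e he
          rw [Finset.mem_inter] at he
          rw [Finset.mem_filter]
          exact ⟨he.2, (hinc x hxU e (Finset.mem_union_left _ he.1)).1⟩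
        have h2 := Finset.card_sdiff_add_card_inter (K x) A
        have h3 := hKc x hxU
        have h4 := hst x
        omega
      choose! M' hM'1 hM'2 using hex
      refine ⟨U', M', hU'c, fun x hx => ⟨?_, ?_, hM'2 x hx, ?_⟩, ?_⟩
      · have h1 := hU' hx
        rw [hUp, Finset.mem_filter] at h1
        rcases hI.hB x h1.1 with h2 | h2
        · exact absurd h2 h1.2
        · exact h2
      · intro e he
        have h1 := Finset.mem_sdiff.1 (hM'1 x hx he)
        have hxU := hUpU (hU' hx)
        exact mem_free.2 ⟨(hinc x hxU e (Finset.mem_union_left _ h1.1)).2, h1.2,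
          Finset.disjoint_left.1 (hI.hKE x hxU) h1.1⟩
      · intro e he
        have h1 := Finset.mem_sdiff.1 (hM'1 x hx he)
        exact (hinc x (hUpU (hU' hx)) e (Finset.mem_union_left _ h1.1)).1
      · intro x hx y hy hxy
        have h1 := hd x (hUpU (hU' hx)) y (hUpU (hU' hy)) hxy
        refine Finset.disjoint_of_subset_left ?_ (Finset.disjoint_of_subset_right ?_ h1)
        · exact (hM'1 x hx).trans (Finset.sdiff_subset.trans Finset.subset_union_left)
        · exact (hM'1 y hy).trans (Finset.sdiff_subset.trans Finset.subset_union_left)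
    · push Not at hend
      -- Enforcer claims b edges, junk first
      have hTex : ∃ T : Finset (Sym2 (Fin n)), T ⊆ J ∪ f ∧ T.card = b ∧
          (T ⊆ J ∨ J ⊆ T) := by
        by_cases hJb : b ≤ J.card
        · obtain ⟨T, hT, hTc⟩ := Finset.exists_subset_card_eq hJb
          exact ⟨T, hT.trans Finset.subset_union_left, hTc, Or.inl hT⟩
        · push Not at hJb
          obtain ⟨T', hT', hTc'⟩ := Finset.exists_subset_card_eq
            (show b - J.card ≤ f.card by omega)
          refine ⟨J ∪ T', Finset.union_subset_union le_rfl hT', ?_,
            Or.inr Finset.subset_union_left⟩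
          rw [Finset.card_union_of_disjoint, hTc']
          · omega
          · exact Finset.disjoint_of_subset_right hT' hJf
      obtain ⟨T, hT, hTc, hTJ⟩ := hTex
      have hTf : T ⊆ free A E := by
        refine hT.trans (Finset.union_subset Finset.sdiff_subset Finset.inter_subset_left)
      have hKT : ∀ x ∈ U, Disjoint (K x) T := by
        intro x hx
        rw [Finset.disjoint_left]
        intro e he heT
        have heM : e ∈ MM := by
          rw [hMM, Finset.mem_biUnion]
          exact ⟨x, hx, Finset.mem_union_left _ he⟩
        rcases Finset.mem_union.1 (hT heT) with h1 | h1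
        · exact (Finset.mem_sdiff.1 h1).2 heM
        · have h2 := (Finset.mem_inter.1 h1).2
          rw [hRR, Finset.mem_biUnion] at h2
          obtain ⟨y, hy, hey⟩ := h2
          by_cases hxy : x = y
          · subst hxy
            exact Finset.disjoint_left.1 (hKR x hx) he hey
          · exact Finset.disjoint_left.1 (hd x hx y (Finset.mem_sdiff.1 hy).1 hxy)
              (Finset.mem_union_left _ he) (Finset.mem_union_right _ hey)
      have hKE' : ∀ x ∈ U, Disjoint (K x) (E ∪ T) := by
        intro x hx
        rw [Finset.disjoint_union_right]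
        exact ⟨hI.hKE x hx, hKT x hx⟩
      refine ⟨T, hTf, ?_, ?_⟩
      · have := Finset.card_le_card hTf
        omega
      · have hne : (free A (E ∪ T)).Nonempty := by
          by_contra hne
          rw [Finset.not_nonempty_iff_eq_empty] at hne
          have hu : 0 < U.card := by
            rw [hU]
            rcases Nat.eq_zero_or_pos u with h | h
            · subst h; omega
            · exact h
          obtain ⟨x, hx⟩ := Finset.card_pos.1 hu
          have h1 : (K x).card ≤ deg A x := by
            apply Finset.card_le_card
            intro e he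
            rw [Finset.mem_filter]
            have h1 := hinc x hx e (Finset.mem_union_left _ he)
            refine ⟨?_, h1.1⟩
            by_contra hA
            have : e ∈ free A (E ∪ T) :=
              mem_free.2 ⟨h1.2, hA, Finset.disjoint_left.1 (hKE' x hx) he⟩
            rw [hne] at this
            simp at this
          have h2 := hKc x hx
          have h3 := hst x
          omega
        apply round_of_EP hne
        intro e he
        have heA : e ∉ A := (mem_free.1 he).2.1
        apply ih
        · have h1 := card_free_union hTf
          have h2 := card_free_insert he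
          omega
        · refine ⟨fun x hx => (hI.hA x hx).trans (deg_mono (Finset.subset_insert _ _) x),
            hKE', ?_, ?_, Cg_step hI.hcg hTf hTc he⟩
          · intro x hx
            by_cases hex : e ∈ K x ∪ R x
            · right
              rw [deg_insert_of_mem heA (hinc x hx e hex).1]
              have := hI.hA x hx
              omega
            · rcases hI.hB x hx with h1 | h1
              · left
                rw [Finset.disjoint_insert_right]
                exact ⟨hex, h1⟩
              · right
                exact h1.trans (deg_mono (Finset.subset_insert _ _) x)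
          · rcases hTJ with h1 | h1
            · -- junk only
              have h2 : (E ∪ T) ∩ MM = E ∩ MM := by
                rw [Finset.union_inter_distrib_right]
                have : T ∩ MM = ∅ := by
                  rw [← Finset.disjoint_iff_inter_eq_empty]
                  exact Finset.disjoint_of_subset_left h1 Finset.sdiff_disjoint
                rw [this, Finset.union_empty]
              change ((E ∪ T) ∩ MM).card ≤ b * (insert e A ∩ MM).card
              rw [h2]
              refine hI.hc.trans (Nat.mul_le_mul_left _ (Finset.card_le_card ?_))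
              exact Finset.inter_subset_inter_right (Finset.subset_insert _ _)
            · change ((E ∪ T) ∩ MM).card ≤ b * (insert e A ∩ MM).card
              have heM : e ∈ MM := by
                by_contra heM
                rw [free_union, Finset.mem_sdiff] at he
                exact he.2 (h1 (Finset.mem_sdiff.2 ⟨he.1, heM⟩))
              have h2 : (insert e A ∩ MM).card = (A ∩ MM).card + 1 := by
                rw [Finset.insert_inter_of_mem heM, Finset.card_insert_of_notMem]
                intro h
                exact heA (Finset.mem_inter.1 h).1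
              have h3 : ((E ∪ T) ∩ MM).card ≤ (E ∩ MM).card + b := by
                rw [Finset.union_inter_distrib_right]
                refine (Finset.card_union_le _ _).trans ?_
                have := Finset.card_le_card (Finset.inter_subset_left (s₁ := T) (s₂ := MM))
                omega
              have h4 := hI.hc
              change (E ∩ MM).card ≤ b * (A ∩ MM).card at h4
              rw [h2, Nat.mul_add, Nat.mul_one]
              omega

theorem stage {k b j u m g s : ℕ} (hk : 1 ≤ k) (hg : g ≤ b) (hb : 1 ≤ b)
    (hug : 2 * b ≤ u * g) (hm : k ≤ m)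
    (next : ∀ A E : Finset (Sym2 (Fin n)), Cg b s A E →
      Fam n (j + 1) (u * g / (2 * b * k) + 1) (m - k) A E → EP n k b A E)
    (A E : Finset (Sym2 (Fin n))) (hcg : Cg b s A E) (hF : Fam n j u (m + g) A E) :
    EP n k b A E := by
  obtain ⟨U, M, hU, hM, hd⟩ := hF
  have hex : ∀ x ∈ U, ∃ K, K ⊆ M x ∧ K.card = m := by
    intro x hx
    apply Finset.exists_subset_card_eq
    rw [(hM x hx).2.2.1]
    omega
  choose! K hK1 hK2 using hex
  have hKR : ∀ x ∈ U, K x ∪ (M x \ K x) = M x := by
    intro x hx
    exact Finset.union_sdiff_of_subset (hK1 x hx)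
  have hbU : U.biUnion (fun x => K x ∪ (M x \ K x)) = U.biUnion M :=
    Finset.biUnion_congr rfl hKR
  have hMMfree : U.biUnion M ⊆ free A E := by
    intro e he
    rw [Finset.mem_biUnion] at he
    obtain ⟨x, hx, hex⟩ := he
    exact (hM x hx).2.1 hex
  apply stage_aux hk hg hb hug hm next U K (fun x => M x \ K x) hU _ _ hK2 _ _ _ A E le_rfl
  · refine ⟨fun x hx => (hM x hx).1, ?_, ?_, ?_, hcg⟩
    · intro x hx
      rw [Finset.disjoint_left]
      intro e he
      exact (mem_free.1 ((hM x hx).2.1 (hK1 x hx he))).2.2
    · intro x hx
      left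
      rw [hKR x hx, Finset.disjoint_left]
      intro e he
      exact (mem_free.1 ((hM x hx).2.1 he)).2.1
    · rw [hbU]
      have : E ∩ U.biUnion M = ∅ := by
        rw [← Finset.disjoint_iff_inter_eq_empty, Finset.disjoint_right]
        intro e he
        exact (mem_free.1 (hMMfree he)).2.2
      rw [this]
      simp
  · intro x hx e he
    rw [hKR x hx] at he
    exact ⟨(hM x hx).2.2.2 e he, (mem_free.1 ((hM x hx).2.1 he)).1⟩
  · intro x hx
    exact Finset.disjoint_sdiff
  · intro x hx
    rw [Finset.card_sdiff_of_subset (hK1 x hx), (hM x hx).2.2.1, hK2 x hx]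
    omega
  · intro x hx y hy hxy
    rw [hKR x hx, hKR y hy]
    exact hd x hx y hy hxy

end Pool.Agent.R82.AE
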