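import Pool.Agent.R82.AE.Num

/-!
Thresholds of the star game: asymptotics.
-/

namespace Pool.Agent.R82.AE

open Finset Filter

lemma eventually_rpow (a b K : ℝ) (hab : a < b) :
    ∀ᶠ n : ℕ in atTop, K * (n : ℝ) ^ a ≤ (n : ℝ) ^ b := by
  have h1 := (tendsto_rpow_atTop (sub_pos.2 hab)).comp (tendsto_natCast_atTop_atTop (R := ℝ))
  filter_upwards [h1.eventually_ge_atTop K, eventually_gt_atTop 0] with n h2 h3
  have hn : (0 : ℝ) < n := by exact_mod_cast h3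
  have h4 : (n : ℝ) ^ b = (n : ℝ) ^ (b - a) * (n : ℝ) ^ a := by
    rw [← Real.rpow_add hn, sub_add_cancel]
  rw [h4]
  exact mul_le_mul_of_nonneg_right h2 (Real.rpow_nonneg hn.le _)

/-- `n ^ (k / (k - 1))`. -/
noncomputable def xx (n k : ℕ) : ℝ := (n : ℝ) ^ ((k : ℝ) / ((k : ℝ) - 1))

/-- `n ^ ((k + 1) / k)`. -/
noncomputable def yy (n k : ℕ) : ℝ := (n : ℝ) ^ (((k : ℝ) + 1) / (k : ℝ))

lemma xx_pow {n k : ℕ} (hk : 3 ≤ k) : (xx n k) ^ (k - 1) = (n : ℝ) ^ k := by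
  have hk' : (3 : ℝ) ≤ k := by exact_mod_cast hk
  unfold xx
  rw [← Real.rpow_natCast, ← Real.rpow_mul (Nat.cast_nonneg n), Nat.cast_sub (by omega),
    Nat.cast_one, div_mul_cancel₀ _ (by linarith), Real.rpow_natCast]

lemma yy_pow {n k : ℕ} (hk : 3 ≤ k) : (yy n k) ^ k = (n : ℝ) ^ (k + 1) := by
  have hk' : (3 : ℝ) ≤ k := by exact_mod_cast hk
  unfold yy
  rw [← Real.rpow_natCast, ← Real.rpow_mul (Nat.cast_nonneg n), div_mul_cancel₀ _ (by linarith)]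
  have : (k : ℝ) + 1 = ((k + 1 : ℕ) : ℝ) := by push_cast; ring
  rw [this, Real.rpow_natCast]

lemma one_le_yy {n k : ℕ} (hk : 3 ≤ k) (hn : 1 ≤ n) : 1 ≤ yy n k := by
  apply Real.one_le_rpow (by exact_mod_cast hn)
  positivity

lemma n_le_yy {n k : ℕ} (hk : 3 ≤ k) (hn : 1 ≤ n) : (n : ℝ) ≤ yy n k := by
  have hk' : (3 : ℝ) ≤ k := by exact_mod_cast hk
  have h1 : (n : ℝ) = (n : ℝ) ^ (1 : ℝ) := (Real.rpow_one _).symm
  conv_lhs => rw [h1]
  apply Real.rpow_le_rpow_of_exponent_le (by exact_mod_cast hn)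
  rw [le_div_iff₀ (by linarith)]
  linarith

lemma yy_le_xx {n k : ℕ} (hk : 3 ≤ k) (hn : 1 ≤ n) : yy n k ≤ xx n k := by
  have hk' : (3 : ℝ) ≤ k := by exact_mod_cast hk
  apply Real.rpow_le_rpow_of_exponent_le (by exact_mod_cast hn)
  rw [div_le_div_iff₀ (by linarith) (by linarith)]
  nlinarith

lemma xx_le_sq {n k : ℕ} (hk : 3 ≤ k) (hn : 1 ≤ n) : xx n k ≤ (n : ℝ) ^ 2 := by
  have hk' : (3 : ℝ) ≤ k := by exact_mod_cast hk
  rw [← Real.rpow_natCast]
  apply Real.rpow_le_rpow_of_exponent_le (by exact_mod_cast hn)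
  rw [div_le_iff₀ (by linarith)]
  push_cast
  linarith

lemma choose_ge {n : ℕ} (hn : 2 ≤ n) : (n : ℝ) ^ 2 / 4 ≤ (n.choose 2 : ℝ) := by
  rw [Nat.cast_choose_two]
  have : (2 : ℝ) ≤ n := by exact_mod_cast hn
  nlinarith

lemma choose_le (n : ℕ) : (n.choose 2 : ℝ) ≤ (n : ℝ) ^ 2 / 2 := by
  rw [Nat.cast_choose_two]
  have : (0 : ℝ) ≤ n := Nat.cast_nonneg n
  nlinarith

/-! ### Upper threshold -/

lemma avoider_of_large {n k b : ℕ} (hk : 3 ≤ k) (hn : 1 ≤ n) (hb : 2 * xx n k ≤ b) :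
    AvoiderWins n k b := by
  apply avoider_num_one hk hn
  have h0 : 0 ≤ xx n k := Real.rpow_nonneg (Nat.cast_nonneg n) _
  have h1 : (2 * xx n k) ^ (k - 1) ≤ (b : ℝ) ^ (k - 1) := by
    apply pow_le_pow_left₀ (by positivity) hb
  rw [mul_pow, xx_pow hk] at h1
  exact_mod_cast h1

lemma not_both {n k b : ℕ} (h1 : AvoiderWins n k b) (h2 : EnforcerWins n k b) : False :=
  (avoider_iff k b ∅ ∅).1 h1 h2

lemma fplus_le {n k : ℕ} (hk : 3 ≤ k) (hn : 1 ≤ n) : (fplus n k : ℝ) ≤ 3 * xx n k := by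
  have hx1 : 1 ≤ xx n k := (one_le_yy hk hn).trans (yy_le_xx hk hn)
  have h1 : ⌈2 * xx n k⌉₊ ∈ {f : ℕ | ∀ b, f < b → AvoiderWins n k b} := by
    intro b hb
    apply avoider_of_large hk hn
    have h2 := Nat.le_ceil (2 * xx n k)
    have h3 : (⌈2 * xx n k⌉₊ : ℝ) < b := by exact_mod_cast hb
    linarith
  have h2 : fplus n k ≤ ⌈2 * xx n k⌉₊ := Nat.sInf_le h1
  have h3 : (⌈2 * xx n k⌉₊ : ℝ) < 2 * xx n k + 1 := Nat.ceil_lt_add_one (by positivity)
  have h4 : (fplus n k : ℝ) ≤ ⌈2 * xx n k⌉₊ := by exact_mod_cast h2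
  linarith

lemma le_fplus {n k b : ℕ} (hk : 3 ≤ k) (hn : 1 ≤ n) (h : EnforcerWins n k b) :
    b ≤ fplus n k := by
  have hne : {f : ℕ | ∀ b, f < b → AvoiderWins n k b}.Nonempty := by
    refine ⟨⌈2 * xx n k⌉₊, ?_⟩
    intro b hb
    apply avoider_of_large hk hn
    have h2 := Nat.le_ceil (2 * xx n k)
    have h3 : (⌈2 * xx n k⌉₊ : ℝ) < b := by exact_mod_cast hb
    linarith
  have h1 := Nat.sInf_mem hne
  by_contra hlt
  push Not at hlt
  exact not_both (h1 b hlt) h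

/-- The constant. -/
def LL (k : ℕ) : ℕ := 48 * k * (16 * k ^ 2) ^ k

lemma LL_ge {k : ℕ} (hk : 3 ≤ k) : 48 ≤ LL k := by
  unfold LL
  have h1 : 1 ≤ (16 * k ^ 2) ^ k := Nat.one_le_pow _ _ (by positivity)
  have h2 : 48 * 1 ≤ 48 * k := by omega
  calc 48 = 48 * 1 * 1 := by norm_num
    _ ≤ 48 * k * (16 * k ^ 2) ^ k := Nat.mul_le_mul h2 h1

lemma C1_of {n k b : ℕ} (hk : 3 ≤ k) (hb : (b : ℝ) ≤ xx n k / LL k) :
    LL k * b ^ (k - 1) ≤ n ^ k := by
  have hL : (48 : ℝ) ≤ LL k := by exact_mod_cast LL_ge hk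
  have h0 : 0 ≤ xx n k := Real.rpow_nonneg (Nat.cast_nonneg n) _
  have h1 : (b : ℝ) ^ (k - 1) ≤ (xx n k / LL k) ^ (k - 1) :=
    pow_le_pow_left₀ (Nat.cast_nonneg b) hb _
  rw [div_pow, xx_pow hk] at h1
  have h2 : (LL k : ℝ) ≤ (LL k : ℝ) ^ (k - 1) := by
    apply le_self_pow₀ (by linarith) (by omega)
  have h3 : (LL k : ℝ) * (b : ℝ) ^ (k - 1) ≤ (n : ℝ) ^ k := by
    rw [le_div_iff₀ (by positivity)] at h1
    calc (LL k : ℝ) * (b : ℝ) ^ (k - 1) ≤ (LL k : ℝ) ^ (k - 1) * (b : ℝ) ^ (k - 1) :=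
          mul_le_mul_of_nonneg_right h2 (by positivity)
      _ = (b : ℝ) ^ (k - 1) * (LL k : ℝ) ^ (k - 1) := mul_comm _ _
      _ ≤ _ := h1
  exact_mod_cast h3

lemma C2_of {n k b : ℕ} (hk : 3 ≤ k) (hb : (b : ℝ) ≤ yy n k / LL k) :
    LL k * b ^ k ≤ n ^ (k + 1) := by
  have hL : (48 : ℝ) ≤ LL k := by exact_mod_cast LL_ge hk
  have h0 : 0 ≤ yy n k := Real.rpow_nonneg (Nat.cast_nonneg n) _
  have h1 : (b : ℝ) ^ k ≤ (yy n k / LL k) ^ k :=
    pow_le_pow_left₀ (Nat.cast_nonneg b) hb _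
  rw [div_pow, yy_pow hk] at h1
  have h2 : (LL k : ℝ) ≤ (LL k : ℝ) ^ k := by
    apply le_self_pow₀ (by linarith) (by omega)
  have h3 : (LL k : ℝ) * (b : ℝ) ^ k ≤ (n : ℝ) ^ (k + 1) := by
    rw [le_div_iff₀ (by positivity)] at h1
    calc (LL k : ℝ) * (b : ℝ) ^ k ≤ (LL k : ℝ) ^ k * (b : ℝ) ^ k :=
          mul_le_mul_of_nonneg_right h2 (by positivity)
      _ = (b : ℝ) ^ k * (LL k : ℝ) ^ k := mul_comm _ _
      _ ≤ _ := h1
  exact_mod_cast h3

/-- Arithmetic for the lower bound of the upper threshold. -/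
lemma arith_one {N D : ℕ} (hD : 1 ≤ D) (hN : D ≤ N) :
    ∃ q d r, q = N / D + 1 ∧ d < D ∧ D ≤ 2 * (d + 1) ∧ N = q * d + r ∧ 1 ≤ r ∧ r ≤ q := by
  obtain ⟨q, hq⟩ : ∃ q, q = N / D + 1 := ⟨_, rfl⟩
  have hq2 : 1 ≤ N / D := (Nat.one_le_div_iff (by omega)).2 hN
  have h1 : N < D * q := by rw [hq]; exact Nat.lt_mul_div_succ N (by omega)
  have h2 : (q - 1) * D ≤ N := by
    rw [hq, Nat.add_sub_cancel]
    exact Nat.div_mul_le_self _ _
  have h3 : q * ((N - 1) / q) ≤ N - 1 := Nat.mul_div_le _ _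
  have h4 : N - 1 < q * ((N - 1) / q + 1) := Nat.lt_mul_div_succ _ (by omega)
  refine ⟨q, (N - 1) / q, N - q * ((N - 1) / q), hq, ?_, ?_, by omega, by omega, ?_⟩
  · rw [Nat.div_lt_iff_lt_mul (by omega)]
    omega
  · have h5 : (q - 1) * D ≤ (q - 1) * (2 * ((N - 1) / q + 1)) := by
      refine h2.trans ?_
      have h6 : q * ((N - 1) / q + 1) ≤ (2 * (q - 1)) * ((N - 1) / q + 1) :=
        Nat.mul_le_mul_right _ (by omega)
      have h7 : (2 * (q - 1)) * ((N - 1) / q + 1) = (q - 1) * (2 * ((N - 1) / q + 1)) := by ring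
      omega
    exact Nat.le_of_mul_le_mul_left h5 (by omega)
  · rw [Nat.mul_add, Nat.mul_one] at h4
    omega

/-- Arithmetic for the upper bound of the lower threshold. -/
lemma arith_two {N D : ℕ} (hD : 1 ≤ D) (hN : 2 * D ≤ N) (hD2 : 2 * N ≤ D * D) :
    ∃ q d r, D ≤ d ∧ d ≤ 2 * D ∧ N = q * d + r ∧ 1 ≤ r ∧ r ≤ d ∧ d ≤ 2 * r := by
  obtain ⟨Q, hQ⟩ : ∃ Q, Q = N / D := ⟨_, rfl⟩
  have hQ2 : 2 ≤ Q := by
    rw [hQ, Nat.le_div_iff_mul_le (by omega)]
    exact hN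
  have h1 : N < D * (Q + 1) := by rw [hQ]; exact Nat.lt_mul_div_succ N (by omega)
  have h2 : Q * D ≤ N := by rw [hQ]; exact Nat.div_mul_le_self _ _
  -- d = ceil (N / Q)
  obtain ⟨d, hd⟩ : ∃ d, d = (N - 1) / Q + 1 := ⟨_, rfl⟩
  have h3 : N - 1 < Q * d := by rw [hd]; exact Nat.lt_mul_div_succ _ (by omega)
  have h4 : Q * (d - 1) ≤ N - 1 := by rw [hd, Nat.add_sub_cancel]; exact Nat.mul_div_le _ _
  have hd1 : 1 ≤ d := by rw [hd]; exact Nat.le_add_left 1 _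
  have h5 : D ≤ d := by
    have : Q * D ≤ Q * d := by omega
    exact Nat.le_of_mul_le_mul_left this (by omega)
  have h6 : d ≤ 2 * D := by
    have h7 : Q * (d - 1) < Q * (2 * D) := by
      have h8 : D * (Q + 1) ≤ Q * (2 * D) := by nlinarith
      omega
    have := Nat.lt_of_mul_lt_mul_left h7
    omega
  have h7 : 2 * Q ≤ D := by
    have : (2 * Q) * D ≤ D * D := by nlinarith
    exact Nat.le_of_mul_le_mul_right this (by omega)
  have h8 : Q * d = (Q - 1) * d + d := by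
    obtain ⟨Q', rfl⟩ : ∃ Q', Q = Q' + 1 := ⟨Q - 1, by omega⟩
    rw [Nat.add_sub_cancel]
    ring
  have h9 : Q * (d - 1) = Q * d - Q := by
    rw [Nat.mul_sub, Nat.mul_one]
  refine ⟨Q - 1, d, N - (Q - 1) * d, h5, h6, ?_, ?_, ?_, ?_⟩ <;> omega

lemma exists_r (N b : ℕ) : ∃ r, 1 ≤ r ∧ r ≤ b + 1 ∧ N % (b + 1) = r % (b + 1) := by
  rcases Nat.eq_zero_or_pos (N % (b + 1)) with h | h
  · exact ⟨b + 1, by omega, le_rfl, by rw [h, Nat.mod_self]⟩
  · exact ⟨N % (b + 1), h, (Nat.mod_lt _ (by omega)).le, (Nat.mod_mod _ _).symm⟩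

theorem upper_threshold {k : ℕ} (hk : 3 ≤ k) :
    ∃ c C : ℝ, 0 < c ∧ 0 < C ∧ ∀ᶠ n : ℕ in atTop,
      c * xx n k ≤ (fplus n k : ℝ) ∧ (fplus n k : ℝ) ≤ C * xx n k := by
  have hL : (48 : ℝ) ≤ LL k := by exact_mod_cast LL_ge hk
  have hk' : (3 : ℝ) ≤ k := by exact_mod_cast hk
  obtain ⟨L, hLL⟩ : ∃ L : ℝ, L = LL k := ⟨_, rfl⟩
  rw [← hLL] at hL
  refine ⟨1 / (8 * L), 3, by positivity, by norm_num, ?_⟩
  have hev := eventually_rpow 1 ((k : ℝ) / ((k : ℝ) - 1)) (100 * L) (by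
    rw [lt_div_iff₀ (by linarith)]; linarith)
  filter_upwards [hev, eventually_ge_atTop (16 * k ^ 2), eventually_ge_atTop (2 * (2 * k) ^ k + 2)]
    with n h1 h2 h3
  have hn3 : 144 ≤ n := by nlinarith
  have hn3' : (144 : ℝ) ≤ n := by exact_mod_cast hn3
  refine ⟨?_, fplus_le hk (by omega)⟩
  rw [Real.rpow_one] at h1
  change 100 * L * n ≤ xx n k at h1
  obtain ⟨x, hx⟩ : ∃ x, x = xx n k := ⟨_, rfl⟩
  rw [← hx] at h1 ⊢
  have hxpos : 0 < x := by
    have : 0 < 100 * L * n := by positivity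
    linarith
  set D := ⌊x / L⌋₊ with hD
  have hxL : 100 * (n : ℝ) ≤ x / L := by
    rw [le_div_iff₀ (by positivity)]; linarith
  have hD1 : (D : ℝ) ≤ x / L := Nat.floor_le (by positivity)
  have hD2 : x / L < D + 1 := Nat.lt_floor_add_one _
  have hDn : 99 * n ≤ D := by
    have : (99 * n : ℝ) ≤ D := by linarith
    exact_mod_cast this
  have hDN : D ≤ n.choose 2 := by
    have h4 : (D : ℝ) ≤ n.choose 2 := by
      have h5 := choose_ge (n := n) (by omega)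
      have h6 := xx_le_sq (n := n) hk (by omega)
      rw [← hx] at h6
      have h7 : x / L ≤ x / 4 := by
        apply div_le_div_of_nonneg_left hxpos.le (by norm_num) (by linarith)
      linarith
    exact_mod_cast h4
  obtain ⟨q, d, r, hq, hd1, hd2, hN, hr1, hr2⟩ := arith_one (by omega) hDN
  have hqn : q * 8 ≤ n := by
    -- N / D ≤ n / 99
    have h4 : n.choose 2 / D ≤ n / 99 := by
      have h5 : n.choose 2 ≤ n * n := by
        have h6 := choose_le n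
        have h7 : (n.choose 2 : ℝ) ≤ n * n := by nlinarith
        exact_mod_cast h7
      calc n.choose 2 / D ≤ (n * n) / (99 * n) := Nat.div_le_div h5 hDn (by omega)
        _ = n / 99 := Nat.mul_div_mul_right _ _ (by omega)
    omega
  have hdn : 40 * n ≤ d := by omega
  have hbd : d - 1 + 1 = d := by omega
  have hEW : EnforcerWins n k (d - 1) := by
    apply enforcer_num hk h2 h3 (by omega) hr1
    · rw [hbd, hN, Nat.mul_add_mod_self_right]
    · apply C1_of hk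
      rw [← hx, ← hLL]
      have : ((d - 1 : ℕ) : ℝ) ≤ D := by exact_mod_cast (by omega : d - 1 ≤ D)
      linarith
    · left
      omega
  have h5 := le_fplus hk (by omega) hEW
  have h6 : D ≤ 2 * fplus n k + 4 := by omega
  have h7 : (D : ℝ) ≤ 2 * fplus n k + 4 := by exact_mod_cast h6
  have h8 : 1 / (8 * L) * x = (x / L) / 8 := by field_simp
  rw [h8]
  linarith

theorem lower_threshold {k : ℕ} (hk : 3 ≤ k) :
    ∃ c C : ℝ, 0 < c ∧ 0 < C ∧ ∀ᶠ n : ℕ in atTop,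
      c * yy n k ≤ (fminus n k : ℝ) ∧ (fminus n k : ℝ) ≤ C * yy n k := by
  have hL : (48 : ℝ) ≤ LL k := by exact_mod_cast LL_ge hk
  have hk' : (3 : ℝ) ≤ k := by exact_mod_cast hk
  obtain ⟨L, hLL⟩ : ∃ L : ℝ, L = LL k := ⟨_, rfl⟩
  rw [← hLL] at hL
  refine ⟨1 / (2 * L), 10, by positivity, by norm_num, ?_⟩
  have hev := eventually_rpow (((k : ℝ) + 1) / (k : ℝ)) 2 100 (by
    rw [div_lt_iff₀ (by linarith)]; linarith)
  have hev2 := eventually_rpow 0 (((k : ℝ) + 1) / (k : ℝ)) (2 * L) (by positivity)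
  filter_upwards [hev, hev2, eventually_ge_atTop (16 * k ^ 2),
    eventually_ge_atTop (2 * (2 * k) ^ k + 2)] with n h1 h1' h2 h3
  have hn3 : 144 ≤ n := by nlinarith
  have hn3' : (144 : ℝ) ≤ n := by exact_mod_cast hn3
  rw [Real.rpow_zero, mul_one] at h1'
  rw [Real.rpow_two] at h1
  change 100 * yy n k ≤ (n : ℝ) ^ 2 at h1
  change 2 * L ≤ yy n k at h1'
  obtain ⟨y, hy⟩ : ∃ y, y = yy n k := ⟨_, rfl⟩
  have hyn := n_le_yy (n := n) hk (by omega)
  rw [← hy] at h1 h1' hyn ⊢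
  have hypos : 0 < y := by linarith
  -- the upper bound
  set D := ⌈4 * y⌉₊ with hD
  have hD1 : 4 * y ≤ D := Nat.le_ceil _
  have hD2 : (D : ℝ) < 4 * y + 1 := Nat.ceil_lt_add_one (by positivity)
  have hDn : 4 * n ≤ D := by
    have : (4 * n : ℝ) ≤ D := by linarith
    exact_mod_cast this
  have hND : 2 * D ≤ n.choose 2 := by
    have h5 := choose_ge (n := n) (by omega)
    have h4 : (2 * D : ℝ) ≤ n.choose 2 := by nlinarith
    exact_mod_cast h4
  have hND2 : 2 * n.choose 2 ≤ D * D := by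
    have h6 := choose_le n
    have h7 : (2 * n.choose 2 : ℝ) ≤ n * n := by nlinarith
    have h8 : 2 * n.choose 2 ≤ n * n := by exact_mod_cast h7
    nlinarith
  obtain ⟨q, d, r, hd1, hd2, hN, hr1, hr2, hr3⟩ := arith_two (by omega) hND hND2
  have hbd : d - 1 + 1 = d := by omega
  have hAW : AvoiderWins n k (d - 1) := by
    apply avoider_num_two hk (by omega) hr1 (by omega) (by rw [hbd, hN, Nat.mul_add_mod_self_right])
    have h4 : 2 * y ≤ r := by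
      have h5 : (d : ℝ) ≤ 2 * r := by exact_mod_cast hr3
      have h6 : (D : ℝ) ≤ d := by exact_mod_cast hd1
      linarith
    have h5 : (2 * y) ^ k ≤ (r : ℝ) ^ k := pow_le_pow_left₀ (by positivity) h4 _
    rw [mul_pow, hy, yy_pow hk] at h5
    exact_mod_cast h5
  have hbound : ∀ f ∈ {f : ℕ | ∀ b, 1 ≤ b → b ≤ f → EnforcerWins n k b}, f ≤ d - 1 := by
    intro f hf
    by_contra hlt
    push Not at hlt
    exact not_both hAW (hf (d - 1) (by omega) hlt.le)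
  constructor
  · -- the lower bound
    have hmem : ⌊y / L⌋₊ ∈ {f : ℕ | ∀ b, 1 ≤ b → b ≤ f → EnforcerWins n k b} := by
      intro b hb1 hb2
      obtain ⟨r', hr1', hr2', hr3'⟩ := exists_r (n.choose 2) b
      have hb3 : (b : ℝ) ≤ y / L := by
        have h5 : (b : ℝ) ≤ ⌊y / L⌋₊ := by exact_mod_cast hb2
        exact h5.trans (Nat.floor_le (by positivity))
      apply enforcer_num hk h2 h3 hb1 hr1' hr3'
      · apply C1_of hk
        rw [← hLL]
        refine hb3.trans ?_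
        apply div_le_div_of_nonneg_right _ (by positivity)
        rw [hy]
        exact yy_le_xx hk (by omega)
      · right
        refine ⟨hr2', ?_⟩
        apply C2_of hk
        rw [← hLL, ← hy]
        exact hb3
    have h5 : ⌊y / L⌋₊ ≤ fminus n k := le_csSup ⟨d - 1, hbound⟩ hmem
    have h6 : y / L < ⌊y / L⌋₊ + 1 := Nat.lt_floor_add_one _
    have h7 : (⌊y / L⌋₊ : ℝ) ≤ fminus n k := by exact_mod_cast h5
    have h8 : 2 ≤ y / L := by rw [le_div_iff₀ (by positivity)]; linarith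
    have h9 : 1 / (2 * L) * y = (y / L) / 2 := by field_simp
    rw [h9]
    linarith
  · have h5 : fminus n k ≤ d - 1 := by
      apply csSup_le ⟨0, ?_⟩ hbound
      intro b hb1 hb2
      omega
    have h6 : fminus n k ≤ 2 * D := by omega
    have h7 : (fminus n k : ℝ) ≤ 2 * D := by exact_mod_cast h6
    linarith

end Pool.Agent.R82.AE
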