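import Pool.Agent.R82.AE.Avoid

/-!
Numerical conditions (in natural numbers).
-/

namespace Pool.Agent.R82.AE

open Finset

lemma W_bound {n ρ : ℕ} {W : ℕ → ℕ} (hW0 : W 0 = n)
    (hW : ∀ j, W (j + 1) = 2 * (W j * (n - 1) / ρ)) (j : ℕ) :
    W j * ρ ^ j ≤ n * (2 * (n - 1)) ^ j := by
  induction j with
  | zero => simp [hW0]
  | succ j ih =>
    rw [hW, pow_succ, pow_succ]
    calc 2 * (W j * (n - 1) / ρ) * (ρ ^ j * ρ) = 2 * ρ ^ j * (W j * (n - 1) / ρ * ρ) := by ring
      _ ≤ 2 * ρ ^ j * (W j * (n - 1)) := Nat.mul_le_mul_left _ (Nat.div_mul_le_self _ _)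
      _ = (W j * ρ ^ j) * (2 * (n - 1)) := by ring
      _ ≤ (n * (2 * (n - 1)) ^ j) * (2 * (n - 1)) := Nat.mul_le_mul_right _ ih
      _ = n * ((2 * (n - 1)) ^ j * (2 * (n - 1))) := by ring

lemma W_zero {n ρ : ℕ} {W : ℕ → ℕ} (hW0 : W 0 = n)
    (hW : ∀ j, W (j + 1) = 2 * (W j * (n - 1) / ρ)) (j : ℕ)
    (h : 2 ^ (j + 1) * n ^ (j + 2) ≤ ρ ^ (j + 1)) (hn : 1 ≤ n) : W (j + 1) = 0 := by
  rw [hW]
  have h1 : W j * (n - 1) < ρ := by
    have h2 := W_bound hW0 hW j
    have h3 : (W j * (n - 1)) * ρ ^ j < ρ * ρ ^ j := by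
      calc (W j * (n - 1)) * ρ ^ j = (W j * ρ ^ j) * (n - 1) := by ring
        _ ≤ (n * (2 * (n - 1)) ^ j) * (n - 1) := Nat.mul_le_mul_right _ h2
        _ ≤ (n * (2 * n) ^ j) * n := by
          gcongr <;> omega
        _ = 2 ^ j * n ^ (j + 2) := by rw [mul_pow]; ring
        _ < 2 ^ (j + 1) * n ^ (j + 2) := by
          have h8 : 0 < 2 ^ j * n ^ (j + 2) := by positivity
          have h9 : 2 ^ (j + 1) * n ^ (j + 2) = 2 * (2 ^ j * n ^ (j + 2)) := by ring
          omega
        _ ≤ ρ ^ (j + 1) := h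
        _ = ρ * ρ ^ j := by ring
    exact Nat.lt_of_mul_lt_mul_right h3
  rw [Nat.div_eq_of_lt h1]

lemma exists_W (n ρ : ℕ) : ∃ W : ℕ → ℕ, W 0 = n ∧ ∀ j, W (j + 1) = 2 * (W j * (n - 1) / ρ) :=
  ⟨fun j => Nat.rec n (fun _ x => 2 * (x * (n - 1) / ρ)) j, rfl, fun _ => rfl⟩

theorem avoider_num_one {n k b : ℕ} (hk : 3 ≤ k) (hn : 1 ≤ n)
    (h : 2 ^ (k - 1) * n ^ k ≤ b ^ (k - 1)) : AvoiderWins n k b := by
  obtain ⟨W, hW0, hW⟩ := exists_W n (b + 1)
  apply avoider_wins_one (by omega) hW0 hW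
  have h1 : k - 1 = (k - 2) + 1 := by omega
  rw [h1]
  apply W_zero hW0 hW _ _ hn
  rw [← h1]
  have h2 : k - 2 + 2 = k := by omega
  rw [h2]
  exact h.trans (Nat.pow_le_pow_left (by omega) _)

theorem avoider_num_two {n k b r : ℕ} (hk : 3 ≤ k) (hn : 1 ≤ n) (hr1 : 1 ≤ r) (hr2 : r ≤ b + 1)
    (hr : n.choose 2 % (b + 1) = r % (b + 1))
    (h : 2 ^ k * n ^ (k + 1) ≤ r ^ k) : AvoiderWins n k b := by
  obtain ⟨W, hW0, hW⟩ := exists_W n r
  apply avoider_wins_two (by omega) hr1 hr2 hr hW0 hW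
  have h1 : k = (k - 1) + 1 := by omega
  rw [h1]
  apply W_zero hW0 hW _ _ hn
  have h2 : k - 1 + 2 = k + 1 := by omega
  rw [← h1, h2]
  exact h

lemma mu_aux {n k g : ℕ} (hk : 3 ≤ k) (hgk : 4 * k * g ≤ n) (hn1 : 16 * k ^ 2 ≤ n)
    (hn3 : 144 ≤ n) : (n + 7) / 8 + (k - 1) * (g + k) + 1 ≤ n - n / 2 := by
  have h1 : (k - 1) * (g + k) + g + k = k * g + k ^ 2 := by
    obtain ⟨k', rfl⟩ : ∃ k', k = k' + 1 := ⟨k - 1, by omega⟩
    simp only [Nat.add_sub_cancel]
    ring
  have h2 : 4 * (k * g) ≤ n := by linarith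
  omega

theorem enforcer_num {n k b r : ℕ} (hk : 3 ≤ k) (hn1 : 16 * k ^ 2 ≤ n)
    (hn2 : 2 * (2 * k) ^ k + 2 ≤ n) (hb : 1 ≤ b) (hr1 : 1 ≤ r)
    (hr : n.choose 2 % (b + 1) = r % (b + 1))
    (hC1 : 48 * k * (16 * k ^ 2) ^ k * b ^ (k - 1) ≤ n ^ k)
    (hC2 : r * 8 ≤ n ∨ (r ≤ b + 1 ∧ 48 * k * (16 * k ^ 2) ^ k * b ^ k ≤ n ^ (k + 1))) :
    EnforcerWins n k b := by
  have hk2 : 3 * k ≤ k ^ 2 := by nlinarith
  have hn3 : 144 ≤ n := by nlinarith
  set g := min (n / (4 * k)) b with hg
  have hgb : g ≤ b := min_le_right _ _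
  obtain ⟨u, hu0, hus⟩ : ∃ u : ℕ → ℕ, u 0 = n / 2 ∧ ∀ j, u (j + 1) = u j * g / (2 * b * k) + 1 :=
    ⟨fun j => Nat.rec (n / 2) (fun _ x => x * g / (2 * b * k) + 1) j, rfl, fun _ => rfl⟩
  have hgk : 4 * k * g ≤ n :=
    (Nat.mul_le_mul_left _ (min_le_left _ _)).trans (Nat.mul_div_le _ _)
  have hμ := mu_aux hk hgk hn1 hn3
  have hk1 : k - 1 = (k - 2) + 1 := by omega
  have hu1 : 1 ≤ u (k - 1) := by
    rw [hk1, hus]
    exact Nat.le_add_left 1 _
  have hbase : (n + 7) / 8 ≤ u (k - 1) * ((n + 7) / 8) := Nat.le_mul_of_pos_left _ hu1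
  rcases le_or_gt b (n / (4 * k)) with hcase | hcase
  · -- small bias
    have hgeq : g = b := min_eq_right hcase
    have hub : ∀ j, n / 2 ≤ u j * (2 * k) ^ j := by
      intro j
      induction j with
      | zero => simp [hu0]
      | succ j ih =>
        refine ih.trans ?_
        rw [pow_succ', ← mul_assoc]
        apply Nat.mul_le_mul_right
        rw [hus, hgeq]
        have h1 : u j * b / (2 * b * k) = u j / (2 * k) := by
          have : 2 * b * k = 2 * k * b := by ring
          rw [this, Nat.mul_div_mul_right _ _ (by omega : 0 < b)]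
        rw [h1, mul_comm (u j / (2 * k) + 1)]
        exact (Nat.lt_mul_div_succ (u j) (by omega : 0 < 2 * k)).le
    have hu2 : ∀ j, j ≤ k → 2 ≤ u j := by
      intro j hj
      by_contra hlt
      push Not at hlt
      have h1 := hub j
      have h2 : u j * (2 * k) ^ j ≤ 1 * (2 * k) ^ k :=
        Nat.mul_le_mul (by omega) (Nat.pow_le_pow_right (by omega) hj)
      omega
    apply enforcer_wins (by omega) hb hgb (by omega) hr1 hr u hu0 hus _ hμ
    · refine le_trans ?_ hbase
      rcases hC2 with h | ⟨h, _⟩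
      · omega
      · have h1 : b ≤ n / 12 := hcase.trans (Nat.div_le_div_left (by omega) (by norm_num))
        omega
    · intro j hj
      rw [hgeq]
      exact Nat.mul_le_mul_right _ (hu2 j (by omega))
  · -- large bias
    have hgeq : g = n / (4 * k) := min_eq_left hcase.le
    have hg1 : 1 ≤ g := by
      rw [hgeq]
      apply Nat.div_pos _ (by omega)
      nlinarith
    have hn4 : n < 4 * k * (g + 1) := by
      rw [hgeq]
      exact Nat.lt_mul_div_succ n (by omega : 0 < 4 * k)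
    have hn8 : n ≤ 8 * k * g := by
      have : 4 * k * (g + 1) ≤ 8 * k * g := by nlinarith
      omega
    have hnb : n ≤ 16 * k ^ 2 * b := by
      have h1 : g + 1 ≤ b := by omega
      have h2 : 4 * k * (g + 1) ≤ 4 * k * b := Nat.mul_le_mul_left _ h1
      have h3 : 4 * k * b ≤ 16 * k ^ 2 * b := Nat.mul_le_mul_right _ (by nlinarith)
      omega
    have hub : ∀ j, (n / 2) * g ^ j ≤ u j * (2 * b * k) ^ j := by
      intro j
      induction j with
      | zero => simp [hu0]
      | succ j ih =>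
        have h1 : u j * g ≤ u (j + 1) * (2 * b * k) := by
          rw [hus, mul_comm (u j * g / (2 * b * k) + 1)]
          exact (Nat.lt_mul_div_succ (u j * g) (by positivity)).le
        calc (n / 2) * g ^ (j + 1) = ((n / 2) * g ^ j) * g := by ring
          _ ≤ (u j * (2 * b * k) ^ j) * g := Nat.mul_le_mul_right _ ih
          _ = (u j * g) * (2 * b * k) ^ j := by ring
          _ ≤ (u (j + 1) * (2 * b * k)) * (2 * b * k) ^ j := Nat.mul_le_mul_right _ h1
          _ = u (j + 1) * (2 * b * k) ^ (j + 1) := by ring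
    have hn3' : n ≤ 3 * (n / 2) := by omega
    -- the downward induction
    have hC : ∀ i, i ≤ k - 2 → 48 * k * (16 * k ^ 2) ^ (k - 2 - i) * b ^ (k - 2 - i + 1) ≤
        n ^ (k - 2 - i + 2) := by
      intro i
      induction i with
      | zero =>
        intro _
        rw [Nat.sub_zero, ← hk1]
        have e1 : k - 2 + 2 = k := by omega
        rw [e1]
        refine le_trans ?_ hC1
        apply Nat.mul_le_mul_right
        apply Nat.mul_le_mul_left
        exact Nat.pow_le_pow_right (by positivity) (by omega)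
      | succ i ih =>
        intro hi
        have h1 := ih (by omega)
        obtain ⟨j, hj⟩ : ∃ j, j = k - 2 - (i + 1) := ⟨_, rfl⟩
        have hj' : k - 2 - i = j + 1 := by omega
        rw [hj'] at h1
        rw [← hj]
        have h2 : 0 < 16 * k ^ 2 * b := by positivity
        apply Nat.le_of_mul_le_mul_right _ h2
        calc 48 * k * (16 * k ^ 2) ^ j * b ^ (j + 1) * (16 * k ^ 2 * b)
            = 48 * k * (16 * k ^ 2) ^ (j + 1) * b ^ (j + 1 + 1) := by ring
          _ ≤ n ^ (j + 1 + 2) := h1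
          _ = n ^ (j + 2) * n := by ring
          _ ≤ n ^ (j + 2) * (16 * k ^ 2 * b) := Nat.mul_le_mul_left _ hnb
    apply enforcer_wins (by omega) hb hgb (by omega) hr1 hr u hu0 hus _ hμ
    · rcases hC2 with h | ⟨h, h'⟩
      · refine le_trans ?_ hbase
        omega
      · refine le_trans (show r ≤ 2 * b by omega) ?_
        have hpos : 0 < 24 * ((8 * k) ^ (k - 1) * (2 * b * k) ^ (k - 1)) := by positivity
        apply Nat.le_of_mul_le_mul_left _ hpos
        have h8 : n ≤ 8 * ((n + 7) / 8) := by omega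
        have hkk : (k - 1) + 1 = k := by omega
        calc 24 * ((8 * k) ^ (k - 1) * (2 * b * k) ^ (k - 1)) * (2 * b)
            = 48 * (16 * k ^ 2) ^ (k - 1) * b ^ ((k - 1) + 1) := by
              have : (16 * k ^ 2) ^ (k - 1) * b ^ (k - 1) = (8 * k) ^ (k - 1) * (2 * b * k) ^ (k - 1) := by
                rw [← mul_pow, ← mul_pow]
                congr 1
                ring
              rw [← this]
              ring
          _ ≤ 48 * k * (16 * k ^ 2) ^ k * b ^ k := by
              rw [hkk]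
              apply Nat.mul_le_mul_right
              apply Nat.mul_le_mul
              · omega
              · exact Nat.pow_le_pow_right (by positivity) (by omega)
          _ ≤ n ^ (k + 1) := h'
          _ = n ^ (k - 1) * n * n := by
              have : k + 1 = (k - 1) + 1 + 1 := by omega
              rw [this, pow_succ, pow_succ]
          _ ≤ (8 * k * g) ^ (k - 1) * (3 * (n / 2)) * (8 * ((n + 7) / 8)) := by
              gcongr
          _ = 24 * (8 * k) ^ (k - 1) * ((n / 2) * g ^ (k - 1)) * ((n + 7) / 8) := by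
              rw [mul_pow]
              ring
          _ ≤ 24 * (8 * k) ^ (k - 1) * (u (k - 1) * (2 * b * k) ^ (k - 1)) * ((n + 7) / 8) := by
              apply Nat.mul_le_mul_right
              exact Nat.mul_le_mul_left _ (hub (k - 1))
          _ = 24 * ((8 * k) ^ (k - 1) * (2 * b * k) ^ (k - 1)) * (u (k - 1) * ((n + 7) / 8)) := by
              ring
    · intro j hj
      have hCj := hC (k - 2 - j) (by omega)
      have e1 : k - 2 - (k - 2 - j) = j := by omega
      rw [e1] at hCj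
      have hpos : 0 < 3 * ((8 * k) ^ (j + 1) * (2 * b * k) ^ j) := by positivity
      apply Nat.le_of_mul_le_mul_left _ hpos
      calc 3 * ((8 * k) ^ (j + 1) * (2 * b * k) ^ j) * (2 * b)
          = 48 * k * (16 * k ^ 2) ^ j * b ^ (j + 1) := by
            have : (16 * k ^ 2) ^ j * b ^ j = (8 * k) ^ j * (2 * b * k) ^ j := by
              rw [← mul_pow, ← mul_pow]
              congr 1
              ring
            calc 3 * ((8 * k) ^ (j + 1) * (2 * b * k) ^ j) * (2 * b)
                = 48 * k * b * ((8 * k) ^ j * (2 * b * k) ^ j) := by ring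
              _ = 48 * k * b * ((16 * k ^ 2) ^ j * b ^ j) := by rw [this]
              _ = _ := by ring
        _ ≤ n ^ (j + 2) := hCj
        _ = n ^ (j + 1) * n := by ring
        _ ≤ (8 * k * g) ^ (j + 1) * (3 * (n / 2)) := by gcongr
        _ = 3 * (8 * k) ^ (j + 1) * ((n / 2) * g ^ j) * g := by rw [mul_pow]; ring
        _ ≤ 3 * (8 * k) ^ (j + 1) * (u j * (2 * b * k) ^ j) * g := by
            apply Nat.mul_le_mul_right
            exact Nat.mul_le_mul_left _ (hub j)
        _ = 3 * ((8 * k) ^ (j + 1) * (2 * b * k) ^ j) * (u j * g) := by ring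

end Pool.Agent.R82.AE
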