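import Pool.Agent.R82.AE.Enforce

/-!
Iterating the stages of Enforcer's strategy.
-/

namespace Pool.Agent.R82.AE

open Finset

variable {n : ℕ}

lemma card_board (n : ℕ) : (board n).card = n.choose 2 := by
  unfold board
  rw [← Fintype.card_subtype, Sym2.card_subtype_not_diag, Fintype.card_fin]

lemma free_empty (n : ℕ) : free (∅ : Finset (Sym2 (Fin n))) ∅ = board n := by
  simp [free]

theorem enforcer_wins {n k b μ g r : ℕ} (hk : 1 ≤ k) (hb : 1 ≤ b) (hg : g ≤ b) (hn : 2 ≤ n)
    (hr1 : 1 ≤ r) (hr : n.choose 2 % (b + 1) = r % (b + 1)) (u : ℕ → ℕ) (hu0 : u 0 = n / 2)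
    (hus : ∀ j, u (j + 1) = u j * g / (2 * b * k) + 1)
    (hug : ∀ j, j < k - 1 → 2 * b ≤ u j * g)
    (hμ : μ + (k - 1) * (g + k) + 1 ≤ n - n / 2) (hQ : r ≤ u (k - 1) * μ) :
    EnforcerWins n k b := by
  have claim : ∀ i, i ≤ k - 1 → ∀ A E : Finset (Sym2 (Fin n)), Cg b r A E →
      Fam n (k - 1 - i) (u (k - 1 - i)) (μ + i * (g + k)) A E → EP n k b A E := by
    intro i
    induction i with
    | zero =>
      intro _ A E h1 h2
      simp only [Nat.sub_zero, Nat.zero_mul, Nat.add_zero] at h2
      exact final hk hr1 hQ _ A E le_rfl h1 h2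
    | succ i ih =>
      intro hi A E h1 h2
      have hj : k - 1 - (i + 1) + 1 = k - 1 - i := by omega
      have e1 : μ + (i + 1) * (g + k) = (μ + i * (g + k) + k) + g := by ring
      rw [e1] at h2
      refine stage hk hg hb (hug _ (by omega)) (by omega) ?_ A E h1 h2
      intro A' E' h3 h4
      rw [← hus, hj, Nat.add_sub_cancel] at h4
      exact ih (by omega) A' E' h3 h4
  have hN : 1 ≤ n.choose 2 := Nat.choose_pos hn
  unfold EnforcerWins
  apply round_of_EP
  · rw [← Finset.card_pos, free_empty, card_board]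
    omega
  · intro e he
    have hcard := card_free_insert he
    rw [free_empty, card_board] at hcard
    apply claim (k - 1) le_rfl
    · unfold Cg
      rw [hcard]
      exact hr
    · rw [Nat.sub_self, hu0]
      obtain ⟨X, _, hX⟩ := Finset.exists_subset_card_eq (s := (Finset.univ : Finset (Fin n)))
        (n := n / 2) (by rw [Finset.card_univ, Fintype.card_fin]; exact Nat.div_le_self _ _)
      have hY : Xᶜ.card = n - n / 2 := by rw [Finset.card_compl, Fintype.card_fin, hX]
      have hex : ∀ x ∈ X, ∃ M : Finset (Sym2 (Fin n)),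
          M ⊆ (Xᶜ.image (fun y => s(x, y))).erase e ∧ M.card = μ + (k - 1) * (g + k) := by
        intro x hx
        apply Finset.exists_subset_card_eq
        have h1 : (Xᶜ.image (fun y => s(x, y))).card = n - n / 2 := by
          rw [Finset.card_image_of_injective, hY]
          intro y z hyz
          exact (Sym2.congr_right.1 hyz)
        have h2 := Finset.pred_card_le_card_erase (s := Xᶜ.image (fun y => s(x, y))) (a := e)
        omega
      choose! M hM1 hM2 using hex
      refine ⟨X, M, hX, fun x hx => ⟨Nat.zero_le _, ?_, hM2 x hx, ?_⟩, ?_⟩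
      · intro f hf
        have h1 := hM1 x hx hf
        rw [Finset.mem_erase, Finset.mem_image] at h1
        obtain ⟨h2, y, hy, rfl⟩ := h1
        refine mem_free.2 ⟨?_, ?_, by simp⟩
        · rw [Sym2.mk_isDiag_iff]
          rintro rfl
          exact (Finset.mem_compl.1 hy) hx
        · simpa using h2
      · intro f hf
        have h1 := hM1 x hx hf
        rw [Finset.mem_erase, Finset.mem_image] at h1
        obtain ⟨h2, y, hy, rfl⟩ := h1
        exact Sym2.mem_mk_left x y
      · intro x hx y hy hxy
        rw [Finset.disjoint_left]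
        intro f hf hf'
        have h1 := hM1 x hx hf
        have h1' := hM1 y hy hf'
        rw [Finset.mem_erase, Finset.mem_image] at h1 h1'
        obtain ⟨_, z, hz, rfl⟩ := h1
        obtain ⟨_, w, hw, hzw⟩ := h1'
        rw [Sym2.eq_iff] at hzw
        rcases hzw with ⟨h3, _⟩ | ⟨h3, _⟩
        · exact hxy h3.symm
        · subst h3
          exact (Finset.mem_compl.1 hz) hy

end Pool.Agent.R82.AE
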